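import Mathlib

/-!
# MP_4f3dfd_co: minimum shadow of regular uniform families

* `defined_iff`: regular `c`-families of size `m` on `Fin n` exist iff `m ≤ C(n,c)` and `n ∣ c m`.
* `exact_value`: `f(ab, c, b (C(a,c) - e a / c)) = b C(a,c-1)` for `2 ≤ c ≤ a`, `0 ≤ e ≤ a - c`,
  `c ∣ e a`, `b ≥ 1`.
* `general_lower`: `(c-1) |δJ| ≥ n |∂𝒞|` for every initial colex segment `𝒞` of `(c-1)`-sets with
  `|𝒞| ≤ d`, for every regular family of degree `d`.
-/

namespace Pool.Agent.Results.MP_4f3dfd_co.Blocks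

open Finset
open scoped FinsetFamily

/-- the shadow of a `c`-family on `Fin n` -/
def delta {n : ℕ} (c : ℕ) (J : Finset (Finset (Fin n))) : Finset (Finset (Fin n)) :=
  univ.filter fun Y => Y.card = c - 1 ∧ ∃ X ∈ J, Y ⊆ X

/-- number of members of `J` containing `i` -/
def deg {n : ℕ} (J : Finset (Finset (Fin n))) (i : Fin n) : ℕ := (J.filter fun X => i ∈ X).card

/-- a regular `c`-family on `Fin n` -/
def IsRegular {n : ℕ} (c : ℕ) (J : Finset (Finset (Fin n))) : Prop :=
  (∀ X ∈ J, X.card = c) ∧ ∃ d : ℕ, ∀ i, deg J i = d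

/-- `f(n,c,m)`: least shadow size of a regular `c`-family of size `m` on `Fin n` -/
noncomputable def f (n c m : ℕ) : ℕ :=
  sInf {k | ∃ J : Finset (Finset (Fin n)), IsRegular c J ∧ J.card = m ∧ (delta c J).card = k}

/-! ### Kruskal–Katona slightly below a full level -/

lemma initSeg_erase {n r : ℕ} {𝒞 : Finset (Finset (Fin n))} (h : Colex.IsInitSeg 𝒞 r)
    (hne : 𝒞.Nonempty) : ∃ s ∈ 𝒞, Colex.IsInitSeg (𝒞.erase s) r := by
  obtain ⟨s, hs, hmax⟩ := exists_max_image 𝒞 (fun s => toColex s) hne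
  refine ⟨s, hs, ?_, ?_⟩
  · intro t ht
    exact h.1 (mem_of_mem_erase (by exact_mod_cast ht))
  · intro u t hu ⟨h1, h2⟩
    have hu' := mem_of_mem_erase hu
    refine mem_erase.2 ⟨?_, h.2 hu' ⟨h1, h2⟩⟩
    rintro rfl
    exact absurd (hmax u hu') (not_le.2 h1)

/-- the first `k` elements of `Fin n` -/
def low (n k : ℕ) : Finset (Fin n) := univ.filter fun i => (i : ℕ) < k

lemma card_low {n k : ℕ} (h : k ≤ n) : (low n k).card = k := by
  rw [low, Fin.card_filter_val_lt]; omega

lemma initSeg_full {n r k : ℕ} : Colex.IsInitSeg (powersetCard r (low n k)) r := by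
  refine ⟨Set.sized_powersetCard _ _, ?_⟩
  rintro A B hA ⟨HB₁, HB₂⟩
  rw [mem_powersetCard] at hA ⊢
  refine ⟨fun t ht ↦ ?_, HB₂⟩
  have : toColex (image Fin.val B) < toColex (image Fin.val A) := by
    rwa [Colex.toColex_image_lt_toColex_image Fin.val_strictMono]
  have h2 : (t : ℕ) < k := by
    apply Colex.forall_lt_mono this.le _ t (mem_image.2 ⟨t, ht, rfl⟩)
    simp_rw [mem_image]
    rintro _ ⟨a, ha, hab⟩
    have := hA.1 ha
    simp only [low, mem_filter, mem_univ, true_and] at this
    omega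
  simp [low, h2]

lemma exists_initSeg {n r k : ℕ} (hk : k ≤ n) (e : ℕ) :
    ∃ 𝒞 : Finset (Finset (Fin n)), Colex.IsInitSeg 𝒞 r ∧ 𝒞 ⊆ powersetCard r (low n k) ∧
      𝒞.card = k.choose r - e := by
  induction e with
  | zero =>
    refine ⟨_, initSeg_full, Subset.refl _, ?_⟩
    rw [card_powersetCard, card_low hk]; rfl
  | succ e ih =>
    obtain ⟨𝒞, h1, h2, h3⟩ := ih
    rcases 𝒞.eq_empty_or_nonempty with h4 | h4
    · refine ⟨𝒞, h1, h2, ?_⟩
      rw [h4, card_empty] at h3 ⊢
      omega
    · obtain ⟨s, hs, h5⟩ := initSeg_erase h1 h4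
      refine ⟨𝒞.erase s, h5, (erase_subset _ _).trans h2, ?_⟩
      rw [card_erase_of_mem hs, h3]; omega

lemma kk_minus {n r k e : ℕ} (𝒜 : Finset (Finset (Fin n))) (h1 : (𝒜 : Set (Finset (Fin n))).Sized r)
    (hr : 1 ≤ r) (hrk : r ≤ k) (hkn : k ≤ n) (he : e ≤ k - r) (h2 : k.choose r - e ≤ 𝒜.card) :
    k.choose (r-1) ≤ (∂ 𝒜).card := by
  obtain ⟨𝒞, hC1, hC2, hC3⟩ := exists_initSeg (r := r) hkn e
  have hkk := kruskal_katona h1 (by rw [hC3]; exact h2) hC1
  refine le_trans ?_ hkk
  have hlow := card_low hkn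
  rw [← hlow, ← card_powersetCard]
  apply card_le_card
  intro T hT
  rw [mem_powersetCard] at hT
  by_contra hcon
  -- all supersets are missing
  have hsub : ((low n k) \ T).image (fun x => insert x T) ⊆ powersetCard r (low n k) \ 𝒞 := by
    intro S hS
    obtain ⟨x, hx, rfl⟩ := mem_image.1 hS
    rw [mem_sdiff] at hx
    rw [mem_sdiff, mem_powersetCard]
    refine ⟨⟨insert_subset hx.1 hT.1, ?_⟩, ?_⟩
    · rw [card_insert_of_notMem hx.2, hT.2]; omega
    · intro hmem
      apply hcon
      rw [mem_shadow_iff_insert_mem]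
      exact ⟨x, hx.2, hmem⟩
  have hcard := card_le_card hsub
  rw [card_image_of_injOn, card_sdiff_of_subset hT.1, card_sdiff_of_subset hC2, card_powersetCard,
    hC3, hlow, hT.2] at hcard
  · have : 1 ≤ k.choose r := Nat.choose_pos hrk
    omega
  · intro x hx y hy hxy
    simp only [coe_sdiff, Set.mem_sdiff, mem_coe] at hx hy
    have h5 : x ∈ insert y T := by
      simp only at hxy
      rw [← hxy]; exact mem_insert_self _ _
    rcases mem_insert.1 h5 with h6 | h6
    · exact h6
    · exact absurd h6 hx.2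

/-! ### Double counting -/

lemma sum_deg {n : ℕ} (J : Finset (Finset (Fin n))) : ∑ i, deg J i = ∑ X ∈ J, X.card := by
  unfold deg
  simp_rw [card_filter]
  rw [sum_comm]
  apply sum_congr rfl
  intro X _
  rw [← card_filter]
  congr 1
  ext i; simp

lemma card_mul {n c : ℕ} {J : Finset (Finset (Fin n))} (h : ∀ X ∈ J, X.card = c) {d : ℕ}
    (hd : ∀ i, deg J i = d) : n * d = c * J.card := by
  have h1 := sum_deg J
  rw [sum_congr rfl h, sum_const, smul_eq_mul] at h1
  simp only [hd, sum_const, card_univ, Fintype.card_fin, smul_eq_mul] at h1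
  rw [h1, mul_comm]

lemma link_bound {n c : ℕ} (hc : 2 ≤ c) {J : Finset (Finset (Fin n))} (h : ∀ X ∈ J, X.card = c) (i : Fin n) :
    ∃ L : Finset (Finset (Fin n)), (L : Set (Finset (Fin n))).Sized (c-1) ∧ L.card = deg J i ∧
      (∂ L).card ≤ deg (delta c J) i := by
  refine ⟨(J.filter fun X => i ∈ X).image (fun X => X.erase i), ?_, ?_, ?_⟩
  · intro Y hY
    simp only [coe_image, Set.mem_image, mem_coe, mem_filter] at hY
    obtain ⟨X, ⟨hX, hi⟩, rfl⟩ := hY
    rw [card_erase_of_mem hi, h X hX]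
  · rw [card_image_of_injOn]
    · rfl
    · intro X hX Y hY hXY
      simp only [coe_filter, Set.mem_setOf_eq] at hX hY
      simp only at hXY
      rw [← insert_erase hX.2, hXY, insert_erase hY.2]
  · unfold deg
    apply card_le_card_of_injOn (fun Z => insert i Z)
    · intro Z hZ
      simp only [mem_coe] at hZ
      rw [mem_shadow_iff_insert_mem] at hZ
      obtain ⟨x, hx, hmem⟩ := hZ
      obtain ⟨X, hX, hXe⟩ := mem_image.1 hmem
      rw [mem_filter] at hX
      have hiZ : i ∉ Z := by
        intro hi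
        have : i ∈ X.erase i := by rw [hXe]; exact mem_insert_of_mem hi
        simp at this
      have hZX : Z ⊆ X := by
        intro z hz
        have : z ∈ X.erase i := by rw [hXe]; exact mem_insert_of_mem hz
        exact mem_of_mem_erase this
      have hZc : Z.card + 1 = c - 1 := by
        have h1 : (insert x Z).card = c - 1 := by rw [← hXe, card_erase_of_mem hX.2, h X hX.1]
        rwa [card_insert_of_notMem hx] at h1
      simp only [coe_filter, Set.mem_setOf_eq, delta, mem_filter, mem_univ, true_and]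
      refine ⟨⟨?_, X, hX.1, insert_subset hX.2 hZX⟩, mem_insert_self _ _⟩
      rw [card_insert_of_notMem hiZ]; exact hZc
    · intro Z hZ W hW hZW
      have aux : ∀ Z ∈ ∂ ((J.filter fun X => i ∈ X).image (fun X => X.erase i)), i ∉ Z := by
        intro Z hZ hi
        rw [mem_shadow_iff_insert_mem] at hZ
        obtain ⟨x, hx, hmem⟩ := hZ
        obtain ⟨X, hX, hXe⟩ := mem_image.1 hmem
        have : i ∈ X.erase i := by rw [hXe]; exact mem_insert_of_mem hi
        simp at this
      simp only [mem_coe] at hZ hW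
      simp only at hZW
      rw [← erase_insert (aux Z hZ), hZW, erase_insert (aux W hW)]

lemma delta_card {n c : ℕ} (J : Finset (Finset (Fin n))) :
    ∑ i, deg (delta c J) i = (c-1) * (delta c J).card := by
  rw [sum_deg, sum_congr rfl (g := fun _ => c - 1), sum_const, smul_eq_mul, mul_comm]
  intro X hX
  simp only [delta, mem_filter, mem_univ, true_and] at hX
  exact hX.1

lemma general_lower {n c d : ℕ} (hc : 2 ≤ c) {J : Finset (Finset (Fin n))} (h : ∀ X ∈ J, X.card = c)
    (hd : ∀ i, deg J i = d) (𝒞 : Finset (Finset (Fin n))) (h𝒞 : Colex.IsInitSeg 𝒞 (c-1))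
    (hle : 𝒞.card ≤ d) : n * (∂ 𝒞).card ≤ (c-1) * (delta c J).card := by
  rw [← delta_card]
  have h1 : ∀ i : Fin n, (∂ 𝒞).card ≤ deg (delta c J) i := by
    intro i
    obtain ⟨L, hL1, hL2, hL3⟩ := link_bound hc h i
    refine le_trans (kruskal_katona hL1 ?_ h𝒞) hL3
    rw [hL2, hd]; exact hle
  calc n * (∂ 𝒞).card = ∑ _i : Fin n, (∂ 𝒞).card := by simp
    _ ≤ _ := sum_le_sum (fun i _ => h1 i)

lemma lower {n c d k e : ℕ} (hc : 2 ≤ c) (hck : c ≤ k + 1) (hkn : k ≤ n) (he : e ≤ k + 1 - c)
    {J : Finset (Finset (Fin n))} (h : ∀ X ∈ J, X.card = c)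
    (hd : ∀ i, deg J i = d) (hle : k.choose (c-1) - e ≤ d) :
    n * k.choose (c-2) ≤ (c-1) * (delta c J).card := by
  rw [← delta_card]
  have h1 : ∀ i : Fin n, k.choose (c-2) ≤ deg (delta c J) i := by
    intro i
    obtain ⟨L, hL1, hL2, hL3⟩ := link_bound hc h i
    refine le_trans ?_ hL3
    have := kk_minus (k := k) (e := e) L hL1 (by omega) (by omega) hkn (by omega) (by rw [hL2, hd]; exact hle)
    have h2 : c - 1 - 1 = c - 2 := by omega
    rwa [h2] at this
  calc n * k.choose (c-2) = ∑ _i : Fin n, k.choose (c-2) := by simp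
    _ ≤ _ := sum_le_sum (fun i _ => h1 i)

/-! ### Regular families exist -/

lemma swap_exists {n c : ℕ} (J : Finset (Finset (Fin n))) (hJ : ∀ X ∈ J, X.card = c) {x y : Fin n}
    (hxy : deg J y < deg J x) :
    ∃ W : Finset (Fin n), x ∉ W ∧ y ∉ W ∧ insert x W ∈ J ∧ insert y W ∉ J := by
  by_contra hcon
  push Not at hcon
  have hne : x ≠ y := by rintro rfl; exact lt_irrefl _ hxy
  -- the map X ↦ insert y (X.erase x) is injective from {x ∈ X, y ∉ X} to {y ∈ X, x ∉ X}
  have h1 : ((J.filter fun X => x ∈ X).filter fun X => y ∉ X).card ≤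
      ((J.filter fun X => y ∈ X).filter fun X => x ∉ X).card := by
    apply card_le_card_of_injOn (fun X => insert y (X.erase x))
    · intro X hX
      simp only [mem_coe, mem_filter] at hX
      obtain ⟨⟨hXJ, hx⟩, hy⟩ := hX
      simp only [coe_filter, mem_filter, Set.mem_setOf_eq]
      refine ⟨⟨?_, mem_insert_self _ _⟩, ?_⟩
      · apply hcon (X.erase x) (notMem_erase _ _) (fun h => hy (mem_of_mem_erase h))
        rwa [insert_erase hx]
      · rw [mem_insert]
        push Not
        exact ⟨hne, notMem_erase _ _⟩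
    · intro X hX Y hY hXY
      simp only [mem_coe, mem_filter] at hX hY
      simp only at hXY
      have hX' : y ∉ X.erase x := fun h => hX.2 (mem_of_mem_erase h)
      have hY' : y ∉ Y.erase x := fun h => hY.2 (mem_of_mem_erase h)
      have h2 : X.erase x = Y.erase x := by
        rw [← erase_insert hX', hXY, erase_insert hY']
      rw [← insert_erase hX.1.2, h2, insert_erase hY.1.2]
  have h2 := card_filter_add_card_filter_not (s := J.filter fun X => x ∈ X) (fun X => y ∈ X)
  have h3 := card_filter_add_card_filter_not (s := J.filter fun X => y ∈ X) (fun X => x ∈ X)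
  have h4 : (J.filter fun X => x ∈ X).filter (fun X => y ∈ X) =
      (J.filter fun X => y ∈ X).filter (fun X => x ∈ X) := by
    rw [filter_filter, filter_filter]
    apply filter_congr
    intro X _
    exact and_comm
  unfold deg at hxy
  rw [h4] at h2
  omega

/-- the sum of the squares of the degrees -/
def Phi {n : ℕ} (J : Finset (Finset (Fin n))) : ℤ := ∑ i, (deg J i : ℤ)^2

lemma deg_exchange {n : ℕ} {J : Finset (Finset (Fin n))} {x y : Fin n} {W : Finset (Fin n)}
    (hxy : x ≠ y) (hx : x ∉ W) (hy : y ∉ W) (h1 : insert x W ∈ J) (h2 : insert y W ∉ J) (i : Fin n) :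
    (deg (insert (insert y W) (J.erase (insert x W))) i : ℤ) =
      deg J i + ((if i = y then 1 else 0) - (if i = x then 1 else 0)) := by
  have h3 : insert y W ∉ J.erase (insert x W) := fun h => h2 (mem_of_mem_erase h)
  have e1 : (deg (insert (insert y W) (J.erase (insert x W))) i : ℤ) =
      (if i ∈ insert y W then 1 else 0) + deg (J.erase (insert x W)) i := by
    unfold deg
    rw [filter_insert]
    split_ifs with h
    · rw [card_insert_of_notMem (fun hh => h3 (mem_filter.1 hh).1)]; push_cast; ring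
    · simp
  have e2 : (deg J i : ℤ) = (if i ∈ insert x W then 1 else 0) + deg (J.erase (insert x W)) i := by
    conv_lhs => rw [← insert_erase h1]
    unfold deg
    rw [filter_insert]
    split_ifs with h
    · rw [card_insert_of_notMem (fun hh => (notMem_erase _ _) (mem_filter.1 hh).1)]; push_cast; ring
    · simp
  rw [e1, e2]
  by_cases hix : i = x
  · subst hix
    simp [hx, hxy]
  · by_cases hiy : i = y
    · subst hiy
      simp [hy, hix]; ring
    · simp [hix, hiy]

lemma phi_exchange {n : ℕ} {J : Finset (Finset (Fin n))} {x y : Fin n} {W : Finset (Fin n)}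
    (hxy : x ≠ y) (hx : x ∉ W) (hy : y ∉ W) (h1 : insert x W ∈ J) (h2 : insert y W ∉ J) :
    Phi (insert (insert y W) (J.erase (insert x W))) = Phi J + 2 + 2 * ((deg J y : ℤ) - deg J x) := by
  unfold Phi
  have e : ∀ i : Fin n, (deg (insert (insert y W) (J.erase (insert x W))) i : ℤ)^2 =
      (deg J i : ℤ)^2 + ((if i = y then 1 + 2 * (deg J i : ℤ) else 0) +
        (if i = x then 1 - 2 * (deg J i : ℤ) else 0)) := by
    intro i
    rw [deg_exchange hxy hx hy h1 h2 i]
    by_cases hix : i = x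
    · subst hix
      simp [hxy]; ring
    · by_cases hiy : i = y
      · subst hiy
        simp [hix]; ring
      · simp [hix, hiy]
  rw [sum_congr rfl (fun i _ => e i), sum_add_distrib, sum_add_distrib, sum_ite_eq' univ y,
    sum_ite_eq' univ x]
  simp only [mem_univ, if_true]
  ring

lemma regular_exists {n c m : ℕ} (hn : 1 ≤ n) (hm : m ≤ n.choose c) (hd : n ∣ c * m) :
    ∃ J : Finset (Finset (Fin n)), (∀ X ∈ J, X.card = c) ∧ J.card = m ∧ ∀ i, deg J i = c * m / n := by
  classical
  obtain ⟨d, hd'⟩ := hd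
  set 𝒮 : Finset (Finset (Finset (Fin n))) := powersetCard m (powersetCard c univ) with h𝒮
  have hne : 𝒮.Nonempty := by
    rw [h𝒮, powersetCard_nonempty, card_powersetCard]
    simpa using hm
  obtain ⟨J, hJ, hmin⟩ := exists_min_image 𝒮 Phi hne
  rw [h𝒮, mem_powersetCard] at hJ
  have hJc : ∀ X ∈ J, X.card = c := fun X hX => (mem_powersetCard.1 (hJ.1 hX)).2
  refine ⟨J, hJc, hJ.2, ?_⟩
  have hbal : ∀ x y, deg J x ≤ deg J y + 1 := by
    intro x y
    by_contra hcon
    push Not at hcon
    obtain ⟨W, hx, hy, h1, h2⟩ := swap_exists J hJc (show deg J y < deg J x by omega)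
    have hxy : x ≠ y := by rintro rfl; omega
    have h3 : insert y W ∉ J.erase (insert x W) := fun h => h2 (mem_of_mem_erase h)
    have hmem : insert (insert y W) (J.erase (insert x W)) ∈ 𝒮 := by
      rw [h𝒮, mem_powersetCard]
      refine ⟨?_, ?_⟩
      · intro X hX
        rcases mem_insert.1 hX with h | h
        · rw [h, mem_powersetCard]
          refine ⟨subset_univ _, ?_⟩
          have := hJc _ h1
          rw [card_insert_of_notMem hx] at this
          rw [card_insert_of_notMem hy, this]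
        · exact hJ.1 (mem_of_mem_erase h)
      · rw [card_insert_of_notMem h3, card_erase_of_mem h1, hJ.2]
        have : 0 < J.card := card_pos.2 ⟨_, h1⟩
        omega
    have h4 := hmin _ hmem
    rw [phi_exchange hxy hx hy h1 h2] at h4
    have : (deg J y : ℤ) + 1 < deg J x := by exact_mod_cast hcon
    linarith
  have hsum : ∑ i, deg J i = n * d := by
    rw [sum_deg, sum_congr rfl hJc, sum_const, smul_eq_mul, hJ.2, mul_comm, hd']
  rw [hd', Nat.mul_div_cancel_left _ (by omega)]
  intro i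
  by_contra hi
  rcases lt_or_gt_of_ne hi with h | h
  · -- all degrees ≤ d and one smaller
    have h1 : ∀ j, deg J j ≤ d := by
      intro j; have := hbal j i; omega
    have h2 : ∑ j, deg J j < ∑ _j : Fin n, d :=
      sum_lt_sum (fun j _ => h1 j) ⟨i, mem_univ _, h⟩
    rw [hsum] at h2; simp at h2
  · have h1 : ∀ j, d ≤ deg J j := by
      intro j; have := hbal i j; omega
    have h2 : ∑ _j : Fin n, d < ∑ j, deg J j :=
      sum_lt_sum (fun j _ => h1 j) ⟨i, mem_univ _, h⟩
    rw [hsum] at h2; simp at h2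

theorem defined_iff {n c m : ℕ} (hn : 1 ≤ n) :
    (∃ J : Finset (Finset (Fin n)), IsRegular c J ∧ J.card = m) ↔ m ≤ n.choose c ∧ n ∣ c * m := by
  constructor
  · rintro ⟨J, ⟨hJ, d, hd⟩, rfl⟩
    constructor
    · have : J ⊆ powersetCard c univ := fun X hX => mem_powersetCard.2 ⟨subset_univ _, hJ X hX⟩
      have := card_le_card this
      simpa using this
    · exact ⟨d, (card_mul hJ hd).symm⟩
  · rintro ⟨h1, h2⟩
    obtain ⟨J, hJ, hm, hd⟩ := regular_exists hn h1 h2
    exact ⟨J, ⟨hJ, _, hd⟩, hm⟩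

/-! ### Disjoint blocks -/

/-- the embedding of the block `t` -/
def emb (b a : ℕ) (t : Fin b) : Fin a ↪ Fin (b * a) :=
  ⟨fun x => finProdFinEquiv (t, x), fun x y h => by simpa using h⟩

/-- `b` disjoint copies of a family on `Fin a` -/
def copies (b a : ℕ) (B : Finset (Finset (Fin a))) : Finset (Finset (Fin (b * a))) :=
  ((univ : Finset (Fin b)) ×ˢ B).image fun p => p.2.map (emb b a p.1)

lemma emb_mem {b a : ℕ} {t t' : Fin b} {x : Fin a} {X : Finset (Fin a)} :
    finProdFinEquiv (t, x) ∈ X.map (emb b a t') ↔ t' = t ∧ x ∈ X := by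
  rw [mem_map]
  constructor
  · rintro ⟨y, hy, h⟩
    have h' : finProdFinEquiv (t', y) = finProdFinEquiv (t, x) := h
    have := finProdFinEquiv.injective h'
    simp only [Prod.mk.injEq] at this
    obtain ⟨rfl, rfl⟩ := this
    exact ⟨rfl, hy⟩
  · rintro ⟨rfl, hx⟩
    exact ⟨x, hx, rfl⟩

lemma copies_inj {b a : ℕ} {p p' : Fin b × Finset (Fin a)} (hp : p.2.Nonempty)
    (h : p.2.map (emb b a p.1) = p'.2.map (emb b a p'.1)) : p = p' := by
  obtain ⟨x, hx⟩ := hp
  have h1 : finProdFinEquiv (p.1, x) ∈ p.2.map (emb b a p.1) := emb_mem.2 ⟨rfl, hx⟩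
  rw [h, emb_mem] at h1
  have h2 : p'.1 = p.1 := h1.1
  rw [h2] at h
  exact Prod.ext h2.symm (Finset.map_injective _ h)

lemma copies_card {b a c : ℕ} (hc : 1 ≤ c) {B : Finset (Finset (Fin a))} (hB : ∀ X ∈ B, X.card = c) :
    (copies b a B).card = b * B.card := by
  unfold copies
  rw [card_image_of_injOn, card_product, card_univ, Fintype.card_fin]
  intro p hp p' hp' h
  simp only [coe_product, Set.mem_prod, mem_coe] at hp hp'
  exact copies_inj (card_pos.1 (by rw [hB _ hp.2]; omega)) h

lemma copies_deg {b a c : ℕ} (hc : 1 ≤ c) {B : Finset (Finset (Fin a))} (hB : ∀ X ∈ B, X.card = c)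
    (t : Fin b) (x : Fin a) : deg (copies b a B) (finProdFinEquiv (t, x)) = deg B x := by
  unfold deg copies
  rw [filter_image]
  have h1 : ((univ : Finset (Fin b)) ×ˢ B).filter
      (fun p => finProdFinEquiv (t, x) ∈ p.2.map (emb b a p.1)) = {t} ×ˢ (B.filter fun X => x ∈ X) := by
    ext p
    simp only [mem_filter, mem_product, mem_univ, true_and, mem_singleton, emb_mem]
    tauto
  rw [h1, card_image_of_injOn, card_product, card_singleton, one_mul]
  intro p hp p' hp' h
  simp only [coe_product, Set.mem_prod, mem_coe, mem_filter] at hp hp'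
  exact copies_inj (card_pos.1 (by rw [hB _ hp.2.1]; omega)) h

lemma copies_sized {b a c : ℕ} {B : Finset (Finset (Fin a))} (hB : ∀ X ∈ B, X.card = c) :
    ∀ X ∈ copies b a B, X.card = c := by
  intro X hX
  obtain ⟨p, hp, rfl⟩ := mem_image.1 hX
  rw [mem_product] at hp
  rw [card_map, hB _ hp.2]

lemma copies_shadow {b a c : ℕ} (B : Finset (Finset (Fin a))) :
    (delta c (copies b a B)).card ≤ b * a.choose (c-1) := by
  have h1 : delta c (copies b a B) ⊆ copies b a (powersetCard (c-1) univ) := by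
    intro Y hY
    simp only [delta, mem_filter, mem_univ, true_and] at hY
    obtain ⟨hYc, X, hX, hYX⟩ := hY
    obtain ⟨p, hp, rfl⟩ := mem_image.1 hX
    rw [subset_map_iff] at hYX
    obtain ⟨Z, hZ, rfl⟩ := hYX
    rw [card_map] at hYc
    exact mem_image.2 ⟨(p.1, Z), mem_product.2 ⟨mem_univ _, mem_powersetCard.2 ⟨subset_univ _, hYc⟩⟩, rfl⟩
  refine (card_le_card h1).trans ?_
  unfold copies
  refine card_image_le.trans ?_
  rw [card_product, card_powersetCard, card_univ, card_univ, Fintype.card_fin, Fintype.card_fin]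

lemma choose_ge {k r : ℕ} (hr : 1 ≤ r) (hrk : r ≤ k) : k - r + 1 ≤ k.choose r := by
  induction k with
  | zero => omega
  | succ k ih =>
    rcases Nat.lt_or_ge k r with h | h
    · have : r = k + 1 := by omega
      subst this; simp
    · have h1 := ih h
      obtain ⟨r', rfl⟩ : ∃ r', r = r' + 1 := ⟨r - 1, by omega⟩
      rw [Nat.choose_succ_succ']
      have : 1 ≤ k.choose r' := Nat.choose_pos (by omega)
      omega

theorem exact_value {a b c e : ℕ} (hb : 1 ≤ b) (hc : 2 ≤ c) (hca : c ≤ a) (he : e ≤ a - c)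
    (hdiv : c ∣ e * a) :
    f (b * a) c (b * (a.choose c - e * a / c)) = b * a.choose (c - 1) := by
  obtain ⟨q, hq⟩ := hdiv
  have hqd : e * a / c = q := by rw [hq]; exact Nat.mul_div_cancel_left _ (by omega)
  rw [hqd]
  -- identities
  have hid : c * a.choose c = a * (a-1).choose (c-1) := by
    obtain ⟨a', rfl⟩ : ∃ a', a = a' + 1 := ⟨a - 1, by omega⟩
    obtain ⟨c', rfl⟩ : ∃ c', c = c' + 1 := ⟨c - 1, by omega⟩
    have := Nat.add_one_mul_choose_eq a' c'
    simp only [Nat.add_sub_cancel]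
    rw [this]; ring
  have hch : a - c + 1 ≤ (a-1).choose (c-1) := by
    have := choose_ge (k := a - 1) (r := c - 1) (by omega) (by omega)
    omega
  have hdeg : c * (a.choose c - q) = a * ((a-1).choose (c-1) - e) := by
    rw [Nat.mul_sub, Nat.mul_sub, hid, ← hq, mul_comm e a]
  -- a regular family on `Fin a`
  obtain ⟨B, hB1, hB2, hB3⟩ := regular_exists (n := a) (c := c) (m := a.choose c - q) (by omega)
    (Nat.sub_le _ _) ⟨_, hdeg⟩
  rw [hdeg, Nat.mul_div_cancel_left _ (by omega)] at hB3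
  have hJ1 := copies_sized (b := b) hB1
  have hJ2 := copies_card (b := b) (by omega : 1 ≤ c) hB1
  have hJ3 : ∀ i, deg (copies b a B) i = (a-1).choose (c-1) - e := by
    intro i
    obtain ⟨⟨t, x⟩, rfl⟩ := finProdFinEquiv.surjective i
    rw [copies_deg (by omega) hB1, hB3]
  have hmemb : ∃ J : Finset (Finset (Fin (b*a))), IsRegular c J ∧ J.card = b * (a.choose c - q) ∧
      (delta c J).card = (delta c (copies b a B)).card :=
    ⟨copies b a B, ⟨hJ1, _, hJ3⟩, by rw [hJ2, hB2], rfl⟩
  apply le_antisymm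
  · exact (Nat.sInf_le hmemb).trans (copies_shadow B)
  · have hne : {k | ∃ J : Finset (Finset (Fin (b*a))), IsRegular c J ∧
        J.card = b * (a.choose c - q) ∧ (delta c J).card = k}.Nonempty := ⟨_, hmemb⟩
    obtain ⟨J, ⟨hJc, d, hd⟩, hJm, hk⟩ := Nat.sInf_mem hne
    unfold f
    rw [← hk]
    have h1 := card_mul hJc hd
    rw [hJm] at h1
    have h2 : d = (a-1).choose (c-1) - e := by
      have h3 : c * (b * (a.choose c - q)) = b * a * ((a-1).choose (c-1) - e) := by
        rw [mul_left_comm, hdeg]; ring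
      rw [h3] at h1
      exact Nat.eq_of_mul_eq_mul_left (Nat.mul_pos (by omega) (by omega)) h1
    have h4 := lower (n := b*a) (c := c) (d := d) (k := a - 1) (e := e) hc (by omega)
      (by nlinarith [Nat.sub_le a 1]) (by omega) hJc hd (by rw [h2])
    have h5 : a * (a-1).choose (c-2) = (c-1) * a.choose (c-1) := by
      obtain ⟨a', rfl⟩ : ∃ a', a = a' + 1 := ⟨a - 1, by omega⟩
      obtain ⟨c', rfl⟩ : ∃ c', c = c' + 2 := ⟨c - 2, by omega⟩
      have := Nat.add_one_mul_choose_eq a' c'
      simp only [Nat.add_sub_cancel]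
      rw [this]
      have e1 : c' + 2 - 1 = c' + 1 := by omega
      rw [e1]; ring
    have h6 : (c-1) * (b * a.choose (c-1)) ≤ (c-1) * (delta c J).card := by
      calc (c-1) * (b * a.choose (c-1)) = b * ((c-1) * a.choose (c-1)) := by ring
        _ = b * (a * (a-1).choose (c-2)) := by rw [h5]
        _ = b * a * (a-1).choose (c-2) := by ring
        _ ≤ _ := h4
    exact Nat.le_of_mul_le_mul_left h6 (by omega)

theorem result :
    -- (1) for which `m` the number `f(n,c,m)` is defined
    (∀ n c m : ℕ, 1 ≤ n →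
      ((∃ J : Finset (Finset (Fin n)), IsRegular c J ∧ J.card = m) ↔ m ≤ n.choose c ∧ n ∣ c * m)) ∧
    -- (2) the exact value when the ground set splits into blocks of size `a`
    (∀ a b c e : ℕ, 1 ≤ b → 2 ≤ c → c ≤ a → e ≤ a - c → c ∣ e * a →
      f (b * a) c (b * (a.choose c - e * a / c)) = b * a.choose (c - 1)) ∧
    -- (3) the general lower bound
    (∀ (n c d : ℕ) (J : Finset (Finset (Fin n))), 2 ≤ c → (∀ X ∈ J, X.card = c) → (∀ i, deg J i = d) →
      ∀ 𝒞 : Finset (Finset (Fin n)), Colex.IsInitSeg 𝒞 (c-1) → 𝒞.card ≤ d →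
        n * (∂ 𝒞).card ≤ (c-1) * (delta c J).card) :=
  ⟨fun _ _ _ hn => defined_iff hn, fun _ _ _ _ hb hc hca he hd => exact_value hb hc hca he hd,
    fun _ _ _ _ hc h hd 𝒞 h𝒞 hle => general_lower hc h hd 𝒞 h𝒞 hle⟩

end Pool.Agent.Results.MP_4f3dfd_co.Blocks
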